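import Pool.Agent.ANO2.Idx.Deck

/-!
# ANO, module B: bounded distance (package IDX-NEAR)

* `deck_cocompact`: compact sets `K_i ⊆ ℍ` from `FlatSurface.cocompact`, and
  `K = {p | (∀ i, p.1 i ∈ K_i) ∧ ∀ j, p.2 j ∈ [0, 1]}` (`isCompact_univ_pi`, `IsCompact.prod`;
  translate `p.2 j` by `- ⌊p.2 j⌋`).
* `near`: `p ↦ dist (G p) (G₀ p)` is continuous, so bounded on `K`; if `h p ∈ K` then
  `G (h p) = h' (G p)`, `G₀ (h p) = h' (G₀ p)` with the same deck transformation `h'`, and `h'` is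
  an isometry.
* `model_continuous`: `f` is a homeomorphism, `Matrix.mulVec` is continuous.
-/

set_option autoImplicit false
set_option linter.unusedSectionVars false

open Set Filter Topology
open scoped UpperHalfPlane MatrixGroups

namespace Pool.Agent.ANO2.Idx

open Pool.Agent.ANO Pool.Agent.ANO.Idx

variable {r k : ℕ} {S : Fin r → ClosedSurface}

theorem deck_cocompact (S : Fin r → ClosedSurface) (k : ℕ) : ∃ K : Set (X r k), IsCompact K ∧
    ∀ p, ∃ g, IsDeck S k g ∧ g p ∈ K := by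
  choose Ks hKs hγ using fun i => (S i).cocompact
  refine ⟨(Set.univ.pi Ks) ×ˢ (Set.univ.pi fun _ : Fin k => Set.Icc (0 : ℝ) 1),
    (isCompact_univ_pi hKs).prod (isCompact_univ_pi fun _ => isCompact_Icc), ?_⟩
  intro p
  choose γ hΓ hmem using fun i => hγ i (p.1 i)
  refine ⟨fun q => (fun i => γ i • q.1 i, fun j => q.2 j + ((-⌊p.2 j⌋ : ℤ) : ℝ)),
    ⟨γ, fun j => -⌊p.2 j⌋, hΓ, fun q => rfl⟩, ?_⟩
  refine ⟨fun i _ => hmem i, fun j _ => ?_⟩
  have h1 := Int.floor_le (p.2 j)
  have h2 := Int.lt_floor_add_one (p.2 j)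
  constructor
  · push_cast
    linarith
  · push_cast
    linarith

theorem near {G₀ G : X r k → X r k} (h : Homotopic S G₀ G) (h₀ : Continuous G₀)
    (hG : Continuous G) : ∃ C : ℝ, ∀ p, dist (G p) (G₀ p) ≤ C := by
  obtain ⟨K, hK, hKg⟩ := deck_cocompact S k
  obtain ⟨C, hC⟩ := hK.exists_bound_of_continuousOn (f := fun p => dist (G p) (G₀ p))
    (hG.dist h₀).continuousOn
  refine ⟨C, fun p => ?_⟩
  obtain ⟨g, hg, hgp⟩ := hKg p
  obtain ⟨g', hg', e₀, e⟩ := h g hg
  have h1 : dist (G (g p)) (G₀ (g p)) ≤ C := by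
    have h2 := hC (g p) hgp
    rwa [Real.norm_of_nonneg dist_nonneg] at h2
  have h3 : G (g p) = g' (G p) := congrFun e p
  have h4 : G₀ (g p) = g' (G₀ p) := congrFun e₀ p
  rwa [h3, h4, deck_dist hg'] at h1

theorem model_continuous (S : Fin r → SurfaceMap) (A : Matrix (Fin k) (Fin k) ℤ)
    {τ : (Fin r → ℍ) → (Fin k → ℝ)} (hτ : Continuous τ) : Continuous (model S A τ) := by
  unfold model
  refine Continuous.prodMk ?_ ?_
  · exact continuous_pi fun i =>
      (S i).f.continuous.comp ((continuous_apply i).comp continuous_fst)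
  · exact (continuous_const.matrix_mulVec continuous_snd).add (hτ.comp continuous_fst)

end Pool.Agent.ANO2.Idx
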