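import Pool.Agent.ANO.Idx.Calc
import Pool.Agent.ANO2.Defs

/-!
# ANO, module B: deck transformations (package IDX-DECK)

A deck transformation is `p ↦ (γ_i • p.1 i, p.2 + v)`. `SL(2, ℝ)` acts on `ℍ` by isometries
(`dist_smul`, the instance `IsIsometricSMul SL(2, ℝ) ℍ`).

* `deck_inv`: the inverse is given by `γ_i⁻¹`, `-v`.
* `deck_contDiffOn`: `γ z = (a z + b) / (c z + d)` (`UpperHalfPlane.coe_specialLinearGroup_apply`
  or `UpperHalfPlane.specialLinearGroup_apply`), the denominator does not vanish for `0 < im z`.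
* `deck_tnorm`: the derivative of `γ` at `z` is `1 / (c z + d) ^ 2` (as `det γ = 1`), and
  `im (γ z) = im z / |c z + d| ^ 2` (`UpperHalfPlane.im_smul_eq_div_normSq` or similar); so
  `|γ'(z) v| / im (γ z) = |v| / im z`, componentwise, and `tnorm` is a maximum of such norms.
-/

set_option autoImplicit false
set_option linter.unusedSectionVars false

open Set Filter Topology
open scoped UpperHalfPlane MatrixGroups

namespace Pool.Agent.ANO2.Idx

open Pool.Agent.ANO Pool.Agent.ANO.Idx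

variable {r k : ℕ} {S : Fin r → ClosedSurface} {g g' : X r k → X r k}

/-- the denominator `c z + d` -/
private noncomputable def den_Deck (γ : SL(2, ℝ)) (z : ℂ) : ℂ :=
  ((γ 1 0 : ℝ) : ℂ) * z + ((γ 1 1 : ℝ) : ℂ)

/-- the Moebius transformation `(a z + b) / (c z + d)` -/
private noncomputable def mob_Deck (γ : SL(2, ℝ)) (z : ℂ) : ℂ :=
  (((γ 0 0 : ℝ) : ℂ) * z + ((γ 0 1 : ℝ) : ℂ)) / den_Deck γ z

private theorem det_Deck (γ : SL(2, ℝ)) : γ 0 0 * γ 1 1 - γ 0 1 * γ 1 0 = 1 := by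
  have h := γ.det_coe
  rwa [Matrix.det_fin_two] at h

private theorem den_ne_Deck (γ : SL(2, ℝ)) {z : ℂ} (hz : 0 < z.im) : den_Deck γ z ≠ 0 := by
  intro h
  have h1 := congrArg Complex.im h
  have h2 := congrArg Complex.re h
  simp [den_Deck] at h1 h2
  have h3 := det_Deck γ
  rcases h1 with h1 | h1
  · rw [h1] at h2 h3
    simp at h2
    rw [h2] at h3
    simp at h3
  · exact hz.ne' h1

private theorem coe_Deck (γ : SL(2, ℝ)) (z : ℍ) : ((γ • z : ℍ) : ℂ) = mob_Deck γ z := by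
  rw [UpperHalfPlane.coe_specialLinearGroup_apply]
  rfl

private theorem im_Deck (γ : SL(2, ℝ)) {z : ℂ} :
    (mob_Deck γ z).im = z.im / Complex.normSq (den_Deck γ z) := by
  unfold mob_Deck
  rw [Complex.div_im]
  have h1 : (den_Deck γ z).re = γ 1 0 * z.re + γ 1 1 := by simp [den_Deck]
  have h2 : (den_Deck γ z).im = γ 1 0 * z.im := by simp [den_Deck]
  have h3 : (((γ 0 0 : ℝ) : ℂ) * z + ((γ 0 1 : ℝ) : ℂ)).re = γ 0 0 * z.re + γ 0 1 := by simp
  have h4 : (((γ 0 0 : ℝ) : ℂ) * z + ((γ 0 1 : ℝ) : ℂ)).im = γ 0 0 * z.im := by simp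
  rw [h1, h2, h3, h4, ← sub_div]
  congr 1
  have h5 := det_Deck γ
  linear_combination z.im * h5

private theorem deriv_Deck (γ : SL(2, ℝ)) {z : ℂ} (hz : 0 < z.im) :
    HasDerivAt (mob_Deck γ) ((den_Deck γ z) ^ 2)⁻¹ z := by
  have h1 : HasDerivAt (fun w : ℂ => ((γ 0 0 : ℝ) : ℂ) * w + ((γ 0 1 : ℝ) : ℂ))
      ((γ 0 0 : ℝ) : ℂ) z := by
    simpa using ((hasDerivAt_id z).const_mul ((γ 0 0 : ℝ) : ℂ)).add_const ((γ 0 1 : ℝ) : ℂ)
  have h2 : HasDerivAt (den_Deck γ) ((γ 1 0 : ℝ) : ℂ) z := by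
    have := ((hasDerivAt_id z).const_mul ((γ 1 0 : ℝ) : ℂ)).add_const ((γ 1 1 : ℝ) : ℂ)
    simp only [mul_one] at this
    exact this
  have h3 := h1.div h2 (den_ne_Deck γ hz)
  have h4 : ((den_Deck γ z) ^ 2)⁻¹ = (((γ 0 0 : ℝ) : ℂ) * den_Deck γ z -
      (((γ 0 0 : ℝ) : ℂ) * z + ((γ 0 1 : ℝ) : ℂ)) * ((γ 1 0 : ℝ) : ℂ)) / den_Deck γ z ^ 2 := by
    rw [inv_eq_one_div]
    congr 1
    have h5 : ((γ 0 0 : ℝ) : ℂ) * ((γ 1 1 : ℝ) : ℂ) - ((γ 0 1 : ℝ) : ℂ) * ((γ 1 0 : ℝ) : ℂ) =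
        1 := by
      exact_mod_cast det_Deck γ
    unfold den_Deck
    linear_combination -h5
  rw [h4]
  exact h3

private theorem loc_Deck {γ : Fin r → SL(2, ℝ)} {v : Fin k → ℤ}
    (hg : ∀ p : X r k, g p = (fun i => γ i • p.1 i, fun j => p.2 j + v j)) {x : E r k}
    (hx : x ∈ dom r k) : loc g x = (fun i => mob_Deck (γ i) (x.1 i), fun j => x.2 j + v j) := by
  unfold loc
  rw [hg]
  refine Prod.ext (funext fun i => ?_) rfl
  change ((γ i • (UpperHalfPlane.ofComplex (x.1 i)) : ℍ) : ℂ) = mob_Deck (γ i) (x.1 i)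
  rw [coe_Deck, UpperHalfPlane.ofComplex_apply_of_im_pos (hx i)]

theorem deck_id : IsDeck S k id := by
  refine ⟨fun _ => 1, fun _ => 0, fun i => (S i).Γ.one_mem, fun p => ?_⟩
  refine Prod.ext (funext fun i => ?_) (funext fun j => ?_)
  · exact (one_smul _ _).symm
  · show p.2 j = p.2 j + ((0 : ℤ) : ℝ)
    simp

theorem deck_comp (h : IsDeck S k g) (h' : IsDeck S k g') : IsDeck S k (g ∘ g') := by
  obtain ⟨γ, v, hγ, hg⟩ := h
  obtain ⟨γ', v', hγ', hg'⟩ := h'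
  refine ⟨fun i => γ i * γ' i, fun j => v' j + v j, fun i => (S i).Γ.mul_mem (hγ i) (hγ' i),
    fun p => ?_⟩
  rw [Function.comp_apply, hg, hg']
  refine Prod.ext (funext fun i => ?_) (funext fun j => ?_)
  · exact (mul_smul _ _ _).symm
  · show p.2 j + (v' j : ℝ) + (v j : ℝ) = p.2 j + ((v' j + v j : ℤ) : ℝ)
    push_cast
    ring

theorem deck_inv (h : IsDeck S k g) : ∃ h, IsDeck S k h ∧ (∀ p, h (g p) = p) ∧
    ∀ p, g (h p) = p := by
  obtain ⟨γ, v, hγ, hg⟩ := h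
  refine ⟨fun p => (fun i => (γ i)⁻¹ • p.1 i, fun j => p.2 j + ((-v j : ℤ) : ℝ)),
    ⟨fun i => (γ i)⁻¹, fun j => -v j, fun i => (S i).Γ.inv_mem (hγ i), fun p => rfl⟩,
    fun p => ?_, fun p => ?_⟩
  · rw [hg]
    refine Prod.ext (funext fun i => ?_) (funext fun j => ?_)
    · exact inv_smul_smul (γ i) (p.1 i)
    · show p.2 j + (v j : ℝ) + ((-v j : ℤ) : ℝ) = p.2 j
      push_cast
      ring
  · rw [hg]
    refine Prod.ext (funext fun i => ?_) (funext fun j => ?_)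
    · exact smul_inv_smul (γ i) (p.1 i)
    · show p.2 j + ((-v j : ℤ) : ℝ) + (v j : ℝ) = p.2 j
      push_cast
      ring

theorem deck_dist (h : IsDeck S k g) (p q : X r k) : dist (g p) (g q) = dist p q := by
  obtain ⟨γ, v, hγ, hg⟩ := h
  rw [hg, hg, Prod.dist_eq, Prod.dist_eq]
  congr 1
  · rw [dist_pi_def, dist_pi_def]
    congr 2
    funext i
    exact nndist_smul (γ i) (p.1 i) (q.1 i)
  · exact dist_add_right p.2 q.2 (fun j => (v j : ℝ))

theorem deck_continuous (h : IsDeck S k g) : Continuous g := by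
  exact (Isometry.of_dist_eq (deck_dist h)).continuous

theorem deck_contDiffOn (h : IsDeck S k g) : ContDiffOn ℝ 1 (loc g) (dom r k) := by
  obtain ⟨γ, v, hγ, hg⟩ := h
  have h0 : ContDiffOn ℝ 1 (fun x : E r k => ((fun i => mob_Deck (γ i) (x.1 i),
      fun j => x.2 j + v j) : E r k)) (dom r k) := by
    refine ContDiffOn.prodMk ?_ ?_
    · rw [contDiffOn_pi]
      intro i
      have h1 : ContDiff ℝ 1 (fun x : E r k => x.1 i) :=
        (contDiff_apply ℝ ℂ i).comp contDiff_fst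
      have h2 : ContDiff ℝ 1 (fun x : E r k => den_Deck (γ i) (x.1 i)) :=
        (contDiff_const.mul h1).add contDiff_const
      have h3 : ContDiff ℝ 1 (fun x : E r k =>
          ((γ i 0 0 : ℝ) : ℂ) * x.1 i + ((γ i 0 1 : ℝ) : ℂ)) :=
        (contDiff_const.mul h1).add contDiff_const
      have h4 : ContDiffOn ℝ 1 (fun x : E r k => (den_Deck (γ i) (x.1 i))⁻¹) (dom r k) :=
        h2.contDiffOn.inv fun x hx => den_ne_Deck (γ i) (hx i)
      refine (h3.contDiffOn.mul h4).congr fun x _ => ?_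
      exact div_eq_mul_inv _ _
    · refine ContDiff.contDiffOn ?_
      rw [contDiff_pi]
      intro j
      exact ((contDiff_apply ℝ ℝ j).comp contDiff_snd).add contDiff_const
  exact h0.congr fun x hx => loc_Deck hg hx

private theorem fderiv_Deck {γ : Fin r → SL(2, ℝ)} {v : Fin k → ℤ}
    (hg : ∀ p : X r k, g p = (fun i => γ i • p.1 i, fun j => p.2 j + v j)) (p : X r k)
    (w : E r k) : tmap g p w =
      (fun i => ((den_Deck (γ i) (p.1 i)) ^ 2)⁻¹ * w.1 i, w.2) := by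
  have hd : ∀ i : Fin r, HasFDerivAt (fun x : E r k => mob_Deck (γ i) (x.1 i))
      (((((den_Deck (γ i) (p.1 i)) ^ 2)⁻¹ : ℂ) • (ContinuousLinearMap.id ℝ ℂ)).comp
        ((ContinuousLinearMap.proj (R := ℝ) (φ := fun _ : Fin r => ℂ) i).comp
          (ContinuousLinearMap.fst ℝ (Fin r → ℂ) (Fin k → ℝ)))) (toE p) := by
    intro i
    have h1 : HasDerivAt (mob_Deck (γ i)) ((den_Deck (γ i) (p.1 i)) ^ 2)⁻¹
        (((ContinuousLinearMap.proj (R := ℝ) (φ := fun _ : Fin r => ℂ) i).comp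
          (ContinuousLinearMap.fst ℝ (Fin r → ℂ) (Fin k → ℝ))) (toE p)) :=
      deriv_Deck (γ i) (p.1 i).im_pos
    have h2 := h1.hasFDerivAt.restrictScalars ℝ
    have h3 := h2.comp (toE p)
      ((ContinuousLinearMap.proj (R := ℝ) (φ := fun _ : Fin r => ℂ) i).comp
          (ContinuousLinearMap.fst ℝ (Fin r → ℂ) (Fin k → ℝ))).hasFDerivAt
    refine h3.congr_fderiv ?_
    apply ContinuousLinearMap.ext
    intro u
    simp [mul_comm]
  have h2 : HasFDerivAt (fun x : E r k => ((fun i => mob_Deck (γ i) (x.1 i),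
      fun j => x.2 j + v j) : E r k))
      ((ContinuousLinearMap.pi fun i =>
        (((((den_Deck (γ i) (p.1 i)) ^ 2)⁻¹ : ℂ) • (ContinuousLinearMap.id ℝ ℂ)).comp
        ((ContinuousLinearMap.proj (R := ℝ) (φ := fun _ : Fin r => ℂ) i).comp
          (ContinuousLinearMap.fst ℝ (Fin r → ℂ) (Fin k → ℝ))))).prod
        (ContinuousLinearMap.snd ℝ (Fin r → ℂ) (Fin k → ℝ))) (toE p) := by
    refine HasFDerivAt.prodMk (hasFDerivAt_pi.2 hd) ?_
    exact (ContinuousLinearMap.snd ℝ (Fin r → ℂ) (Fin k → ℝ)).hasFDerivAt.add_const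
      (fun j => (v j : ℝ))
  have h3 : loc g =ᶠ[𝓝 (toE p)] fun x : E r k => ((fun i => mob_Deck (γ i) (x.1 i),
      fun j => x.2 j + v j) : E r k) := by
    filter_upwards [isOpen_dom.mem_nhds (toE_mem p)] with x hx using loc_Deck hg hx
  unfold tmap
  rw [h3.fderiv_eq, h2.fderiv]
  rfl

theorem deck_tnorm (h : IsDeck S k g) (p : X r k) (v : E r k) :
    tnorm (g p) (tmap g p v) = tnorm p v := by
  obtain ⟨γ, u, hγ, hg⟩ := h
  rw [fderiv_Deck hg]
  unfold tnorm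
  rw [Prod.norm_def, Prod.norm_def]
  congr 1
  rw [Pi.norm_def, Pi.norm_def]
  congr 2
  funext i
  apply NNReal.eq
  rw [coe_nnnorm, coe_nnnorm, hg]
  have h1 : ((γ i • p.1 i : ℍ)).im = (p.1 i).im / Complex.normSq (den_Deck (γ i) (p.1 i)) := by
    rw [← UpperHalfPlane.coe_im, coe_Deck, im_Deck, UpperHalfPlane.coe_im]
  have h2 : den_Deck (γ i) (p.1 i) ≠ 0 := den_ne_Deck (γ i) (p.1 i).im_pos
  have h3 : 0 < (p.1 i).im := (p.1 i).im_pos
  have h4 : 0 < Complex.normSq (den_Deck (γ i) (p.1 i)) := Complex.normSq_pos.2 h2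
  show ‖(((γ i • p.1 i : ℍ).im : ℂ))⁻¹ * (((den_Deck (γ i) (p.1 i)) ^ 2)⁻¹ * v.1 i)‖ =
    ‖(((p.1 i).im : ℂ))⁻¹ * v.1 i‖
  rw [h1, norm_mul, norm_mul, norm_mul, norm_inv, norm_inv, norm_inv, norm_pow,
    Complex.norm_real, Complex.norm_real, Real.norm_of_nonneg (by positivity),
    Real.norm_of_nonneg h3.le, Complex.normSq_eq_norm_sq]
  have h5 : ‖den_Deck (γ i) (p.1 i)‖ ≠ 0 := norm_ne_zero_iff.2 h2
  field_simp

end Pool.Agent.ANO2.Idx
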